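import Pool.Agent.Lib.MP_93e743_kp.Main

/-!
The `λ`-design conjecture for `λ = k p` with a fixed `k` and a large prime `p`: it holds if `k = 1`
or `k` is a prime, and for every other `k` there are only finitely many exceptional ratios
`(r₁ - 1) / (r₂ - 1)`.
-/

namespace Pool.Agent.Results.MP_93e743_co.LargePrimeFactor

open Pool.Agent.Lib.MP_93e743_co

/-- Let `k ≥ 1` and let `p ≥ 2 ^ (4000 k ^ 10)` be a prime. Then a `λ`-design with `λ = k p` is
type-1, or `k` is not a prime and the design has points that lie in `g x + 1 > g y + 1` blocks,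
where `x` and `y` are coprime, `x + y ≤ 6 k ^ 2`, the number `d = gcd (k, x - y)` is at least `3`,
and for some integer `j > 0` the number `d` divides `2 j`, the number `x - y` divides `2 j y - k`
and `j y (x + y) ≤ k x`. -/
theorem result (k : ℕ) (hk : 0 < k) (p : ℕ) (hp : p.Prime) (hpk : 2 ^ (4000 * k ^ 10) ≤ p)
    (v : ℕ) (L : Finset (Finset (Fin v))) (hL : IsLambdaDesign v (k * p) L) :
    IsType1 v L ∨
      (¬ k.Prime ∧ ∃ x y g j : ℕ, 0 < g ∧ 0 < y ∧ y < x ∧ Nat.Coprime x y ∧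
        (∃ P, repl L P = g * x + 1) ∧ (∃ Q, repl L Q = g * y + 1) ∧
        x + y ≤ 6 * k ^ 2 ∧ 3 ≤ Nat.gcd k (x - y) ∧ 0 < j ∧ Nat.gcd k (x - y) ∣ 2 * j ∧
        ((x : ℤ) - y) ∣ 2 * (j * y) - k ∧ j * y * (x + y) ≤ k * x) := by
  rcases hL.kp hk hp rfl ((IntSys.bdK_le hk).trans hpk) with h |
    ⟨h0, x, y, g, j, h1, h2, h3, h4, h5, h6, -, -, h7, h8, h9, h10, h11, h12⟩
  · exact Or.inl h
  · exact Or.inr ⟨h0, x, y, g, j, h1, h2, h3, h4, h5, h6, h7, h8, h9, h10, h11, h12⟩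

end Pool.Agent.Results.MP_93e743_co.LargePrimeFactor
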