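import Pool.Agent.Lib.MP_93e743_co.Main

/-!
For every value of `g = gcd (r₁ - 1, r₂ - 1)` all `λ`-designs on sufficiently many points are
type-1.
-/

namespace Pool.Agent.Results.MP_93e743_co.LargeV

open Pool.Agent.Lib.MP_93e743_co

/-- Let `P` and `Q` be points of a `λ`-design on `v` points that lie in `r₁ > r₂` blocks, and let
`g = gcd (r₁ - 1, r₂ - 1)`. If `(g + 5) ^ 4 ≤ 64 (v - 1) / g`, then the design is type-1. -/
theorem result (v lam : ℕ) (L : Finset (Finset (Fin v))) (hL : IsLambdaDesign v lam L)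
    (P Q : Fin v) (hPQ : repl L Q < repl L P)
    (h : (rgcd L P Q + 5) ^ 4 ≤ 64 * ((v - 1) / rgcd L P Q)) :
    IsType1 v L :=
  hL.isType1_of_large hPQ h

end Pool.Agent.Results.MP_93e743_co.LargeV
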