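import Pool.Agent.Lib.MP_93e743_co.Ratio

/-!
The `λ`-designs in which `g gcd (λ, x - y) ^ 4 ≤ 4 (x + y) ^ 3`: they are type-1 if `gcd (λ, x - y)`
is not divisible by a square `k ^ 2` with `k ≥ 3`.
-/

namespace Pool.Agent.Results.MP_93e743_co.PlaneBound

open Pool.Agent.Lib.MP_93e743_co

/-- Let `P` and `Q` be points of a `λ`-design that lie in `g x + 1 > g y + 1` blocks, with `x` and
`y` coprime and `d = gcd (λ, x - y)`, and let `g d ^ 4 ≤ 4 (x + y) ^ 3`. If the design is not
type-1, then `d` is divisible by the square of an integer `k ≥ 3`, and with `e = d / k` there is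
an integer `j` with `0 < j < k` and `2 j ≠ k`, such that `x + y` divides
`e (2 j - k (g x + 1))`, and `|j y - (k - j) x| < 2 e j (k - j)` if `4 d ≤ x + y`. -/
theorem result (v lam : ℕ) (L : Finset (Finset (Fin v))) (hL : IsLambdaDesign v lam L)
    (P Q : Fin v) (x y g d : ℕ) (hP : repl L P = g * x + 1) (hQ : repl L Q = g * y + 1)
    (hg : 0 < g) (hxy : y < x) (hc : Nat.Coprime x y) (hd : d = Nat.gcd lam (x - y))
    (hs : g * d ^ 4 ≤ 4 * (x + y) ^ 3) (hn : ¬ IsType1 v L) :
    ∃ k e j : ℕ, 3 ≤ k ∧ d = k * e ∧ k ^ 2 ∣ d ∧ 0 < j ∧ j < k ∧ 2 * j ≠ k ∧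
      ((x : ℤ) + y ∣ e * (2 * j - k * (g * x + 1))) ∧
      (4 * d ≤ x + y → |(j : ℤ) * y - (k - j) * x| < 2 * e * (j * (k - j))) := by
  obtain ⟨hy, hdm, hgd, l, hl0, hl1, hl2, hl3, hl4⟩ := hL.exists_ratio hP hQ hg hxy hc hd hn
  have hlz0 : (0 : ℤ) < l := by exact_mod_cast hl0
  have hlz1 : (l : ℤ) < d := by exact_mod_cast hl1
  have hne := ratio_ne_half (x := x) (y := y) (g := g) (d := d) (l := l)
    (by exact_mod_cast hg) hlz0 (by exact_mod_cast hy) (by exact_mod_cast hdm) hl4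
  have hl5 : d ∣ l ^ 2 := by
    rcases hl3 with h | h
    · exact h
    · omega
  obtain ⟨a, b, hab, hsq⟩ := Nat.sq_mul_squarefree d
  have hd0 : 0 < d := by omega
  have hb0 : 0 < b := by
    rcases Nat.eq_zero_or_pos b with h | h
    · rw [h] at hab
      simp at hab
      omega
    · exact h
  have h1 : b ∣ l := by
    have : b ^ 2 ∣ l ^ 2 := dvd_trans ⟨a, hab.symm⟩ hl5
    exact (Nat.pow_dvd_pow_iff two_ne_zero).mp this
  obtain ⟨m, hm⟩ := h1
  have h2 : a ∣ m := by
    have h3 : b ^ 2 * a ∣ b ^ 2 * m ^ 2 := by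
      rw [hab, ← mul_pow, ← hm]
      exact hl5
    have h4 : a ∣ m ^ 2 := Nat.dvd_of_mul_dvd_mul_left (by positivity) h3
    exact (Squarefree.dvd_pow_iff_dvd hsq two_ne_zero).mp h4
  obtain ⟨j, hj⟩ := h2
  have ha0 : 0 < a := by
    rcases Nat.eq_zero_or_pos a with h | h
    · rw [h] at hab
      simp at hab
      omega
    · exact h
  have hde : d = b * (a * b) := by rw [← hab]; ring
  have hle : l = (a * b) * j := by rw [hm, hj]; ring
  have he0 : 0 < a * b := Nat.mul_pos ha0 hb0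
  have hj0 : 0 < j := by
    rcases Nat.eq_zero_or_pos j with h | h
    · rw [h] at hle
      omega
    · exact h
  have hjb : j < b := by
    have : (a * b) * j < (a * b) * b := by
      rw [← hle, mul_comm (a * b) b, ← hde]
      exact hl1
    exact lt_of_mul_lt_mul_left this (Nat.zero_le _)
  have hj2 : 2 * j ≠ b := by
    intro h
    apply hne
    have : 2 * l = d := by
      rw [hle, hde, ← h]; ring
    exact_mod_cast this
  refine ⟨b, a * b, j, by omega, hde, ⟨a, hab.symm⟩, hj0, hjb, hj2, ?_, fun h4 => ?_⟩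
  · have e1 : ((a * b : ℕ) : ℤ) * (2 * j - b * (g * x + 1)) = 2 * l - d * (g * x + 1) := by
      rw [hle, hde]
      push_cast
      ring
    rw [e1]
    exact hl2
  · have h5 := ratio_simple hlz0 hlz1 (by exact_mod_cast hgd) (by exact_mod_cast h4) hl4
    have he0' : (0 : ℤ) < ((a * b : ℕ) : ℤ) := by exact_mod_cast he0
    have e1 : (l : ℤ) * y - (d - l) * x = ((a * b : ℕ) : ℤ) * ((j : ℤ) * y - (b - j) * x) := by
      rw [hle, hde]
      push_cast
      ring
    have e2 : (2 : ℤ) * (l * (d - l)) = ((a * b : ℕ) : ℤ) * (2 * ((a * b : ℕ) : ℤ) * (j * (b - j))) := by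
      rw [hle, hde]
      push_cast
      ring
    rw [e1, e2, abs_mul, abs_of_pos he0'] at h5
    exact lt_of_mul_lt_mul_left h5 he0'.le

end Pool.Agent.Results.MP_93e743_co.PlaneBound
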