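import Pool.Agent.Lib.MP_93e743_co.Ratio

/-!
The ratio of the replication numbers of a `λ`-design that is not type-1 lies near one of finitely
many lines. This contains the case `gcd (λ, x - y) ≤ 2` of the `λ`-design conjecture.
-/

namespace Pool.Agent.Results.MP_93e743_co.RatioLines

open Pool.Agent.Lib.MP_93e743_co

/-- Let `P` and `Q` be points of a `λ`-design that lie in `g x + 1 > g y + 1` blocks, with `x` and
`y` coprime and `d = gcd (λ, x - y)`. If the design is not type-1, then there is an integer `l`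
with `0 < l < d` and `2 l ≠ d`, such that `x + y` divides `2 l - d (g x + 1)`, the number
`K = l y - (d - l) x` satisfies
`8 s (s - |2l-d|) |g K + 2 l - d| ≤ g l (d-l) (9 s² + 8 |K|) + 8 l (d-l) (s - |2l-d|)`,
where `s = x + y`, and `|K| < 2 l (d - l)` if `4 d ≤ s`. -/
theorem result (v lam : ℕ) (L : Finset (Finset (Fin v))) (hL : IsLambdaDesign v lam L)
    (P Q : Fin v) (x y g d : ℕ) (hP : repl L P = g * x + 1) (hQ : repl L Q = g * y + 1)
    (hg : 0 < g) (hxy : y < x) (hc : Nat.Coprime x y) (hd : d = Nat.gcd lam (x - y))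
    (hn : ¬ IsType1 v L) :
    ∃ l : ℕ, 0 < l ∧ l < d ∧ 2 * l ≠ d ∧ ((x : ℤ) + y ∣ 2 * l - d * (g * x + 1)) ∧
      8 * ((x : ℤ) + y) * ((x : ℤ) + y - |2 * (l : ℤ) - d|) *
        |g * (l * y - (d - l) * x) + (2 * (l : ℤ) - d)| ≤
          g * (l * (d - l)) * (9 * ((x : ℤ) + y) ^ 2 + 8 * |(l : ℤ) * y - (d - l) * x|) +
            8 * (l * (d - l)) * ((x : ℤ) + y - |2 * (l : ℤ) - d|) ∧
      (4 * d ≤ x + y → |(l : ℤ) * y - (d - l) * x| < 2 * (l * (d - l))) := by
  obtain ⟨hy, hdm, hgd, l, hl0, hl1, hl2, -, hl4⟩ := hL.exists_ratio hP hQ hg hxy hc hd hn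
  have hlz0 : (0 : ℤ) < l := by exact_mod_cast hl0
  have hlz1 : (l : ℤ) < d := by exact_mod_cast hl1
  have hne := ratio_ne_half (x := x) (y := y) (g := g) (d := d) (l := l)
    (by exact_mod_cast hg) hlz0 (by exact_mod_cast hy) (by exact_mod_cast hdm) hl4
  refine ⟨l, hl0, hl1, fun h => hne (by exact_mod_cast h), hl2, hl4, fun h4 => ?_⟩
  exact ratio_simple hlz0 hlz1 (by exact_mod_cast hgd) (by exact_mod_cast h4) hl4

end Pool.Agent.Results.MP_93e743_co.RatioLines
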